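import Mathlib
import Pool.Agent.X217.V6.Three
import Pool.Agent.H430R2.PermCubes.Lower
import Pool.Agent.H430R2.PermCubes.Two
import Pool.Agent.TH302.Cubes.Odd
import Pool.Agent.TH302.Tarry.Upper
import Pool.Agent.TH7.Cyc.Main

set_option autoImplicit false

/-!
# MP_c7a479_co: variational cubes exist in all cases except `n = 2` and `(m, n) = (2, 6)`

A variational cube of dimension `m ≥ 2` and order `n ≥ 2` (`m` jointly orthogonal permutation cubes)
exists if and only if `n ≠ 2` and `(m, n) ≠ (2, 6)`. The new case is `(m, n) = (3, 6)`: three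
orthogonal three-dimensional latin cubes of order six, found by computer, with a symmetry of order
six. Hence `π_m(6)` is `m` or `m + 1` for every `m ≥ 3`, while `π_2(6) = 1`.
-/

namespace Pool.Agent.Results.MP_c7a479_co.OrderSixDimensionThree

open Function Pool.Agent.H430R2.PermCubes

/-- fewer cubes -/
lemma mono {m n k l : ℕ} (hl : l ≤ k) {C : Fin k → (Fin m → Fin n) → Fin n}
    (h : IsVariationalSet m n k C) :
    IsVariationalSet m n l (fun i => C (Fin.castLE hl i)) :=
  ⟨fun i => h.1 _, fun e he => h.2 (fun i => Fin.castLE hl (e i))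
    ((Fin.castLE_injective hl).comp he)⟩

/-- two orthogonal latin squares -/
lemma exists_two {n : ℕ} (h0 : n ≠ 0) (h2 : n ≠ 2) (h6 : n ≠ 6) :
    ∃ C : Fin 2 → (Fin 2 → Fin n) → Fin n, IsVariationalSet 2 n 2 C := by
  obtain ⟨A, B, h1, h2, h3, h4, h5⟩ : ∃ A B : Fin n → Fin n → Fin n, IsPair A B :=
    Pool.Agent.H430R2.Mols.euler_ops h0 h2 h6
  refine ⟨![fun x => A (x 0) (x 1), fun x => B (x 0) (x 1)], ?_, ?_⟩
  · intro j i x
    fin_cases j <;> fin_cases i
    · simpa using h2 (x 1)
    · simpa using h1 (x 0)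
    · simpa using h4 (x 1)
    · simpa using h3 (x 0)
  · intro e he
    have hs : Surjective e := Finite.injective_iff_surjective.1 he
    rw [← Finite.injective_iff_bijective]
    intro x y h
    have hj : ∀ j : Fin 2, (![fun x : Fin 2 → Fin n => A (x 0) (x 1),
        fun x : Fin 2 → Fin n => B (x 0) (x 1)] : Fin 2 → (Fin 2 → Fin n) → Fin n) j x =
        (![fun x : Fin 2 → Fin n => A (x 0) (x 1),
        fun x : Fin 2 → Fin n => B (x 0) (x 1)] : Fin 2 → (Fin 2 → Fin n) → Fin n) j y := by
      intro j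
      obtain ⟨i, rfl⟩ := hs j
      exact congrFun h i
    have e0 : A (x 0) (x 1) = A (y 0) (y 1) := hj 0
    have e1 : B (x 0) (x 1) = B (y 0) (y 1) := hj 1
    have := @h5 (x 0, x 1) (y 0, y 1) (by simp [e0, e1])
    rw [Prod.mk.injEq] at this
    funext i
    fin_cases i
    · exact this.1
    · exact this.2

/-- no two orthogonal latin squares of order six -/
lemma not_two_six (C : Fin 2 → (Fin 2 → Fin 6) → Fin 6) (h : IsVariationalSet 2 6 2 C) :
    False := by
  have hrow : ∀ j : Fin 2, ∀ i, Injective (fun c => C j ![i, c]) := by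
    intro j i
    have := (h.1 j 1 ![i, 0]).1
    intro a b hab
    apply this
    have u : ∀ t : Fin 6, update ![i, 0] 1 t = ![i, t] := by
      intro t
      funext q
      fin_cases q <;> simp
    simp only [u]
    exact hab
  have hcol : ∀ j : Fin 2, ∀ c, Injective (fun i => C j ![i, c]) := by
    intro j c
    have := (h.1 j 0 ![0, c]).1
    intro a b hab
    apply this
    have u : ∀ t : Fin 6, update ![0, c] 0 t = ![t, c] := by
      intro t
      funext q
      fin_cases q <;> simp
    simp only [u]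
    exact hab
  refine Pool.Agent.TH302.Tarry.tarry (fun i c => C 0 ![i, c]) (fun i c => C 1 ![i, c])
    (hrow 0) (hcol 0) (hrow 1) (hcol 1) ?_
  intro i c i' c' e0 e1
  have := (h.2 id injective_id).1 (a₁ := ![i, c]) (a₂ := ![i', c']) (by
    funext j
    fin_cases j
    · exact e0
    · exact e1)
  exact ⟨congrFun this 0, congrFun this 1⟩

/-- `m` cubes of order six, dimension at least three -/
lemma exists_six {m : ℕ} (hm : 3 ≤ m) :
    ∃ C : Fin m → (Fin m → Fin 6) → Fin 6, IsVariationalSet m 6 m C := by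
  rcases Nat.even_or_odd m with he | ho
  · obtain ⟨C, hC⟩ := Pool.Agent.TH7.Cyc.exists_cyc_even (m := m) (by
      rcases he with ⟨r, rfl⟩
      omega) he
    exact ⟨C, hC.1⟩
  · rcases Nat.eq_or_lt_of_le hm with h3 | h3
    · subst h3
      exact ⟨_, Pool.Agent.X217.V6.variational⟩
    · obtain ⟨C, hC⟩ := Pool.Agent.TH302.Cubes.exists_odd (m := m) (by
        rcases ho with ⟨r, rfl⟩
        omega) ho
      exact ⟨_, mono (Nat.le_succ m) hC⟩

/-- **Theorem.** (1) For `m, n ≥ 2` a variational cube of dimension `m` and order `n` exists if and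
only if `n ≠ 2` and `(m, n) ≠ (2, 6)`; in other words `π_m(n) ≥ m` exactly in these cases.
(2) For every `m ≥ 3` the largest size of a variational set of `m`-dimensional permutation cubes of
order six is `m` or `m + 1`. -/
theorem result :
    (∀ m n : ℕ, 2 ≤ m → 2 ≤ n →
      ((∃ C : Fin m → (Fin m → Fin n) → Fin n, IsVariationalSet m n m C) ↔
        n ≠ 2 ∧ ¬ (m = 2 ∧ n = 6))) ∧
    ∀ m : ℕ, 3 ≤ m → IsPi m 6 m ∨ IsPi m 6 (m + 1) := by
  refine ⟨fun m n hm hn => ⟨?_, ?_⟩, fun m hm => ?_⟩
  · rintro ⟨C, hC⟩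
    refine ⟨?_, ?_⟩
    · rintro rfl
      have := two_le hC hm
      omega
    · rintro ⟨rfl, rfl⟩
      exact not_two_six C hC
  · rintro ⟨h2, h6⟩
    rcases Nat.eq_or_lt_of_le hm with h | h
    · subst h
      exact exists_two (by omega) h2 (fun e => h6 ⟨rfl, e⟩)
    · by_cases e : n = 6
      · subst e
        exact exists_six h
      · obtain ⟨C, hC⟩ := exists_succ (m := m) (n := n) h (by omega) h2 e
        exact ⟨_, mono (Nat.le_succ m) hC⟩
  · have hub : ∀ (k : ℕ) (C : Fin k → (Fin m → Fin 6) → Fin 6), IsVariationalSet m 6 k C →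
        k ≤ m + 1 := fun k C h => Pool.Agent.TH302.Tarry.le_of_array h.2 (by omega)
    by_cases h : ∃ C : Fin (m + 1) → (Fin m → Fin 6) → Fin 6, IsVariationalSet m 6 (m + 1) C
    · right
      exact ⟨h, fun k ⟨C, hC⟩ => hub k C hC⟩
    · left
      refine ⟨exists_six hm, fun k ⟨C, hC⟩ => ?_⟩
      by_contra hk
      push Not at hk
      have := hub k C hC
      have hk' : k = m + 1 := by omega
      subst hk'
      exact h ⟨C, hC⟩

end Pool.Agent.Results.MP_c7a479_co.OrderSixDimensionThree
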